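import Pool.Agent.Helper31.JE.Assemble

/-!
# MP_ce5406_an: joint ergodicity of squared integer parts of fractional powers, complex functions and oscillating weights

Beside the frozen statement `S06195`.
-/

set_option autoImplicit false

open MeasureTheory Filter Topology Finset
open Pool.Agent.JE Pool.Agent.JE.H31

namespace Pool.Agent.Results.MP_ce5406_an.TwistedAverages

theorem exists_bddC {X : Type} [MeasurableSpace X] {μ : Measure X} (f : X → ℂ) (hf : MemLp f ⊤ μ) :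
    ∃ (C : ℝ) (g : X → ℂ), Bdd g ∧ ∀ᵐ x ∂μ, f x = C * g x := by
  classical
  set C : ℝ := (eLpNorm f ⊤ μ).toReal + 1 with hC
  have hC0 : 0 < C := by positivity
  have hae : ∀ᵐ x ∂μ, ‖f x‖ ≤ C := by
    have h1 := ae_le_eLpNormEssSup (f := f) (μ := μ)
    filter_upwards [h1] with x hx
    have h2 : ‖f x‖ₑ ≤ eLpNorm f ⊤ μ := by simpa using hx
    have h3 := ENNReal.toReal_mono hf.2.ne h2
    rw [toReal_enorm] at h3
    linarith
  set f' := hf.1.mk f with hf'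
  have hf'm : Measurable f' := hf.1.stronglyMeasurable_mk.measurable
  refine ⟨C, fun x => if ‖f' x‖ ≤ C then f' x / C else 0, ⟨?_, fun x => ?_⟩, ?_⟩
  · refine Measurable.ite (measurableSet_le hf'm.norm measurable_const) ?_ measurable_const
    exact hf'm.div_const _
  · split_ifs with h
    · rw [norm_div, Complex.norm_real, Real.norm_of_nonneg hC0.le]
      exact (div_le_one hC0).mpr h
    · simp
  · filter_upwards [hae, hf.1.ae_eq_mk] with x hx hx'
    rw [← hf'] at hx'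
    rw [← hx', if_pos hx]
    have : (C : ℂ) ≠ 0 := by exact_mod_cast hC0.ne'
    field_simp

theorem twisted (k l : ℕ) (c : Fin k → ℝ) (d : Fin l → ℝ) (hc : Function.Injective c)
    (hd : Function.Injective d) (t : Fin l → ℝ) (ht : ∀ j, Irrational (t j))
    (X : Type) [MeasurableSpace X] (μ : Measure X) [IsProbabilityMeasure μ] (T : X ≃ᵐ X)
    (hT : MeasurePreserving T μ μ)
    (hP : PP (actOf T hT) (Finset.univ.image c) (Finset.univ.image d))
    (f : Fin k → X → ℂ) (hf : ∀ i, MemLp (f i) ⊤ μ) :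
    Tendsto (fun N : ℕ => ∫ x, ‖(1 / (N : ℂ)) * ∑ n ∈ Finset.Icc 1 N,
          Complex.exp (2 * Real.pi * Complex.I * ((∑ j, t j * ((⌊(n : ℝ) ^ (d j)⌋₊ ^ 2 : ℕ) : ℝ) : ℝ) : ℂ)) *
            ∏ i, f i ((⇑T)^[⌊(n : ℝ) ^ (c i)⌋₊ ^ 2] x) -
          (if l = 0 then 1 else 0) * ∏ i, ∫ y, f i y ∂μ‖ ^ 2 ∂μ) atTop (𝓝 0) := by
  classical
  set A := actOf T hT with hA
  choose C g hg hfg using fun i => exists_bddC (f i) (hf i)
  set F : ℝ → X → ℂ := Function.extend c g (fun _ _ => 0) with hF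
  set τ : ℝ → ℝ := Function.extend d t (fun _ => 0) with hτ
  have hFc : ∀ i, F (c i) = g i := fun i => hc.extend_apply _ _ _
  have hτd : ∀ j, τ (d j) = t j := fun j => hd.extend_apply _ _ _
  have hFb : ∀ b, Bdd (F b) := by
    intro b
    by_cases hb : ∃ i, c i = b
    · obtain ⟨i, rfl⟩ := hb
      rw [hFc]
      exact hg i
    · rw [hF, Function.extend_apply' _ _ _ hb]
      exact Bdd.const (by simp)
  set E : ℕ → ℂ := fun n => Complex.exp (2 * Real.pi * Complex.I *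
    ((∑ j, t j * ((⌊(n : ℝ) ^ (d j)⌋₊ ^ 2 : ℕ) : ℝ) : ℝ) : ℂ)) with hE
  have hEn : ∀ n, ‖E n‖ = 1 := by
    intro n
    rw [hE]
    simp only
    rw [show (2 * Real.pi * Complex.I * ((∑ j, t j * ((⌊(n : ℝ) ^ (d j)⌋₊ ^ 2 : ℕ) : ℝ) : ℝ) : ℂ)) =
      ((2 * Real.pi * (∑ j, t j * ((⌊(n : ℝ) ^ (d j)⌋₊ ^ 2 : ℕ) : ℝ)) : ℝ) : ℂ) * Complex.I by
        push_cast; ring]
    exact Complex.norm_exp_ofReal_mul_I _
  set bb : ℕ → X → ℂ := fun n x => E n * ∏ i, g i ((⇑T)^[⌊(n : ℝ) ^ (c i)⌋₊ ^ 2] x) with hbb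
  set δ : ℂ := if l = 0 then 1 else 0 with hδ
  set L : ℂ := δ * ∏ i, ∫ y, g i y ∂μ with hL
  set K : ℂ := ∏ i, (C i : ℂ) with hK
  have hphase : ∀ n, ∏ b ∈ Finset.univ.image d, e (τ b * (Pool.Agent.JE.sq b n : ℝ)) = E n := by
    intro n
    rw [Finset.prod_image (fun i _ j _ h => hd h), hE]
    simp only
    unfold e
    rw [← Complex.exp_sum]
    congr 1
    rw [Complex.ofReal_sum, Finset.mul_sum]
    refine Finset.sum_congr rfl fun j _ => ?_
    rw [hτd]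
    unfold Pool.Agent.JE.sq
    push_cast
    ring
  have hprod0 : ∀ n x, ∏ b ∈ Finset.univ.image c, F b (A.S (Pool.Agent.JE.sq b n) x) =
      ∏ i, g i ((⇑T)^[⌊(n : ℝ) ^ (c i)⌋₊ ^ 2] x) := by
    intro n x
    rw [Finset.prod_image (fun i _ j _ h => hc h)]
    refine Finset.prod_congr rfl fun i _ => ?_
    rw [hFc]
    have h1 : Pool.Agent.JE.sq (c i) n = ((⌊(n : ℝ) ^ (c i)⌋₊ ^ 2 : ℕ) : ℤ) := by
      unfold Pool.Agent.JE.sq; push_cast; rfl
    rw [h1, hA, actOf_nat]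
  have hprod' : ∏ b ∈ Finset.univ.image c, ∫ y, F b y ∂μ = ∏ i, ∫ y, g i y ∂μ := by
    rw [Finset.prod_image (fun i _ j _ h => hc h)]
    exact Finset.prod_congr rfl fun i _ => by rw [hFc]
  have h1 := hP F hFb τ (fun b hb => by
    obtain ⟨j, -, rfl⟩ := Finset.mem_image.mp hb
    rw [hτd]
    exact Or.inl (ht j))
  have hif : ∀ inst : Decidable (∀ b ∈ Finset.univ.image d, ∃ m : ℤ, τ b = m),
      (@ite ℂ (∀ b ∈ Finset.univ.image d, ∃ m : ℤ, τ b = m) inst 1 0) = δ := by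
    intro inst
    rw [hδ]
    by_cases hl : l = 0
    · subst hl
      simp
    · rw [if_neg hl, if_neg]
      intro h
      obtain ⟨m, hm⟩ := h (d ⟨0, Nat.pos_of_ne_zero hl⟩) (Finset.mem_image_of_mem _ (mem_univ _))
      rw [hτd] at hm
      exact (ht ⟨0, Nat.pos_of_ne_zero hl⟩).ne_int m hm
  rw [hif] at h1
  simp only [hphase, hprod0, hprod'] at h1
  have h1' : Tendsto (fun N => n2 μ (fun x => avg N (fun n => bb n x) - L)) atTop (𝓝 0) := h1
  have hbbb : ∀ n, Bdd (bb n) := by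
    intro n
    have h2 := Bdd.prod (Finset.univ.image c) (fun b x => F b (A.S (Pool.Agent.JE.sq b n) x))
      fun b _ => (hFb b).comp A _
    simp only [hprod0] at h2
    refine ⟨measurable_const.mul h2.meas, fun x => ?_⟩
    rw [hbb]
    simp only
    rw [norm_mul, hEn, one_mul]
    exact h2.le x
  -- the averages over `1 ≤ n ≤ N`
  set D : ℕ → X → ℂ := fun N x => (1 / (N : ℂ)) * ∑ n ∈ Finset.Icc 1 N, bb n x - L with hD
  have hDeq : ∀ N, 1 ≤ N → ∀ x, D N x = (avg N (fun n => bb n x) - L) +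
      (N : ℂ)⁻¹ * (bb N x - bb 0 x) := by
    intro N hN x
    have h2 : ∑ n ∈ Finset.Icc 1 N, bb n x = ∑ n ∈ range N, bb n x + bb N x - bb 0 x := by
      have h3 : Finset.Icc 1 N = (range (N + 1)).erase 0 := by
        ext n
        simp only [Finset.mem_Icc, Finset.mem_erase, Finset.mem_range]
        omega
      rw [h3, ← Finset.sum_range_succ, Finset.sum_erase_eq_sub (by simp)]
    rw [hD]
    simp only
    rw [h2]
    unfold avg
    beta_reduce
    ring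
  have hn2 : Tendsto (fun N => n2 μ (D N)) atTop (𝓝 0) := by
    have h2 : Tendsto (fun N : ℕ => n2 μ (fun x => avg N (fun n => bb n x) - L) +
        2 * (N : ℝ)⁻¹) atTop (𝓝 0) := by
      have := h1'.add (tendsto_inv_atTop_nhds_zero_nat (𝕜 := ℝ) |>.const_mul 2)
      simpa using this
    refine squeeze_zero' (Eventually.of_forall fun _ => n2_nonneg _) ?_ h2
    filter_upwards [eventually_ge_atTop 1] with N hN
    have h3 : D N = fun x => (avg N (fun n => bb n x) - L) + (N : ℂ)⁻¹ * (bb N x - bb 0 x) := by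
      funext x
      exact hDeq N hN x
    rw [h3]
    have b1 : BM (fun x => avg N (fun n => bb n x) - L) :=
      (BM.avg N bb fun n => (hbbb n).bm).sub (BM.const _)
    have b2 : BM (fun x => bb N x - bb 0 x) := (hbbb N).bm.sub (hbbb 0).bm
    refine (n2_add_le b1 ((BM.const _).mul b2)).trans ?_
    rw [n2_smul, norm_inv, Complex.norm_natCast, mul_comm (2 : ℝ)]
    gcongr
    refine (n2_sub_le (hbbb N).bm (hbbb 0).bm).trans ?_
    have e1 := n2_le_one (μ := μ) (hbbb N).le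
    have e2 := n2_le_one (μ := μ) (hbbb 0).le
    linarith
  have hmain : ∀ N : ℕ, ∫ x, ‖(1 / (N : ℂ)) * ∑ n ∈ Finset.Icc 1 N,
          E n * ∏ i, f i ((⇑T)^[⌊(n : ℝ) ^ (c i)⌋₊ ^ 2] x) -
          δ * ∏ i, ∫ y, f i y ∂μ‖ ^ 2 ∂μ = (‖K‖ * n2 μ (D N)) ^ 2 := by
    intro N
    rw [← n2_smul, n2_sq]
    refine integral_congr_ae ?_
    have h2 : ∀ᵐ x ∂μ, ∀ i, ∀ m : ℕ, f i ((⇑T)^[m] x) = C i * g i ((⇑T)^[m] x) := by
      rw [ae_all_iff]
      intro i
      rw [ae_all_iff]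
      intro m
      exact (hT.iterate m).quasiMeasurePreserving.ae (hfg i)
    filter_upwards [h2] with x hx
    have h3 : ∀ n : ℕ, E n * ∏ i, f i ((⇑T)^[⌊(n : ℝ) ^ (c i)⌋₊ ^ 2] x) = K * bb n x := by
      intro n
      rw [hK, hbb]
      simp only [hx]
      rw [Finset.prod_mul_distrib]
      ring
    have h4 : δ * ∏ i, ∫ y, f i y ∂μ = K * L := by
      rw [hK, hL]
      have h5 : ∏ i, ∫ y, f i y ∂μ = (∏ i, (C i : ℂ)) * ∏ i, ∫ y, g i y ∂μ := by
        rw [← Finset.prod_mul_distrib]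
        refine Finset.prod_congr rfl fun i _ => ?_
        rw [← integral_const_mul]
        exact integral_congr_ae (hfg i)
      rw [h5]
      ring
    have h5 : (1 / (N : ℂ)) * ∑ n ∈ Finset.Icc 1 N,
          E n * ∏ i, f i ((⇑T)^[⌊(n : ℝ) ^ (c i)⌋₊ ^ 2] x) -
          δ * ∏ i, ∫ y, f i y ∂μ = K * D N x := by
      rw [h4]
      simp only [h3, hD]
      rw [← Finset.mul_sum]
      ring
    simp only [h5]
  simp only [hE] at hmain
  rw [show (fun N : ℕ => ∫ x, ‖(1 / (N : ℂ)) * ∑ n ∈ Finset.Icc 1 N,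
          Complex.exp (2 * Real.pi * Complex.I * ((∑ j, t j * ((⌊(n : ℝ) ^ (d j)⌋₊ ^ 2 : ℕ) : ℝ) : ℝ) : ℂ)) *
            ∏ i, f i ((⇑T)^[⌊(n : ℝ) ^ (c i)⌋₊ ^ 2] x) -
          δ * ∏ i, ∫ y, f i y ∂μ‖ ^ 2 ∂μ) = fun N => (‖K‖ * n2 μ (D N)) ^ 2 from funext hmain]
  have := (hn2.const_mul ‖K‖).pow 2
  simpa using this

/-- Let `c_1, ..., c_k` be distinct positive non-integers, `T` a totally ergodic invertible transformation and `f_1, ..., f_k` bounded
complex functions. (1) The averages of `∏ f_i(T^{⌊n^{c_i}⌋²} x)` converge in `L²` to the product of the integrals. (2) If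
`d_1, ..., d_l` (`l ≥ 1`) are distinct non-integers larger than `1` and than all `c_i` and `t_1, ..., t_l` are irrational, then the averages
of `exp(2 π i ∑ t_j ⌊n^{d_j}⌋²) ∏ f_i(T^{⌊n^{c_i}⌋²} x)` converge to `0` in `L²`. -/
theorem result (k : ℕ) (c : Fin k → ℝ) (hc : Function.Injective c) (hc0 : ∀ i, 0 < c i)
    (hcz : ∀ i, ∀ m : ℤ, c i ≠ (m : ℝ))
    (X : Type) [MeasurableSpace X] (μ : Measure X) [IsProbabilityMeasure μ] (T : X ≃ᵐ X)
    (hT : MeasurePreserving T μ μ) (hte : ∀ n : ℕ, 1 ≤ n → Ergodic ((⇑T)^[n]) μ)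
    (f : Fin k → X → ℂ) (hf : ∀ i, MemLp (f i) ⊤ μ) :
    Tendsto (fun N : ℕ => ∫ x, ‖(1 / (N : ℂ)) * ∑ n ∈ Finset.Icc 1 N,
        ∏ i, f i ((⇑T)^[⌊(n : ℝ) ^ (c i)⌋₊ ^ 2] x) - ∏ i, ∫ y, f i y ∂μ‖ ^ 2 ∂μ) atTop (𝓝 0) ∧
    ∀ (l : ℕ) (d t : Fin l → ℝ), 1 ≤ l → Function.Injective d → (∀ j, 1 < d j) →
      (∀ j, ∀ m : ℤ, d j ≠ (m : ℝ)) → (∀ i j, c i < d j) → (∀ j, Irrational (t j)) →
      Tendsto (fun N : ℕ => ∫ x, ‖(1 / (N : ℂ)) * ∑ n ∈ Finset.Icc 1 N,
        Complex.exp (2 * Real.pi * Complex.I * ((∑ j, t j * ((⌊(n : ℝ) ^ (d j)⌋₊ ^ 2 : ℕ) : ℝ) : ℝ) : ℂ)) *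
          ∏ i, f i ((⇑T)^[⌊(n : ℝ) ^ (c i)⌋₊ ^ 2] x)‖ ^ 2 ∂μ) atTop (𝓝 0) := by
  have hE : ∀ m : ℕ, 1 ≤ m → Ergodic ((actOf T hT).S m) μ := fun m hm => by
    rw [actOf_nat]
    exact hte m hm
  have hB : ∀ b ∈ Finset.univ.image c, PosNonInt b := by
    intro b hb
    obtain ⟨i, -, rfl⟩ := Finset.mem_image.mp hb
    exact ⟨hc0 i, hcz i⟩
  constructor
  · have h := twisted k 0 c (fun j => j.elim0) hc (fun i => i.elim0) (fun j => j.elim0)
      (fun j => j.elim0) X μ T hT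
      (main_all (actOf T hT) hE _ _ hB (by simp) (by simp)) f hf
    simpa using h
  · intro l d t hl hd hd1 hdz hcd ht
    have h := twisted k l c d hc hd t ht X μ T hT
      (main_all (actOf T hT) hE _ _ hB (fun b hb => by
        obtain ⟨j, -, rfl⟩ := Finset.mem_image.mp hb
        exact ⟨⟨by linarith [hd1 j], hdz j⟩, hd1 j⟩) (fun b hb b' hb' => by
        obtain ⟨i, -, rfl⟩ := Finset.mem_image.mp hb
        obtain ⟨j, -, rfl⟩ := Finset.mem_image.mp hb'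
        exact hcd i j)) f hf
    rw [if_neg (by omega)] at h
    simpa only [zero_mul, sub_zero] using h

end Pool.Agent.Results.MP_ce5406_an.TwistedAverages
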